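import Pool.Agent.R277.JT.Compl

/-!
# Non-reflexive subspaces of the dual of the James tree space contain `J*` (MP_245e03_an, Q1)

`Tree` is the set of finite 0-1 sequences (`List Bool`), ordered by extension, and `Pre I`, for an
ordered set `I`, is the space of finitely supported functions `x : I → ℝ` with the norm
`sup (∑_{S ∈ P} (∑_{i ∈ S} x i)²)^(1/2)`, the supremum over the finite families `P` of pairwise
disjoint segments of `I` (`Pool.Agent.R277.JT.Def`).
-/

set_option autoImplicit false

namespace Pool.Agent.Results.MP_245e03_an.NonreflexiveContainsJDual

open Pool.Agent.R277.JT UniformSpace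

/-- The James tree space: the completion of the finitely supported functions on the dyadic tree. -/
def JT : Type := Completion (Pre Tree)

noncomputable instance : NormedAddCommGroup JT :=
  Completion.instNormedAddCommGroup (Pre Tree)

noncomputable instance : NormedSpace ℝ JT :=
  Completion.instNormedSpace ℝ (Pre Tree)

/-- The James space: the completion of the finitely supported functions on `ℕ`. -/
def J : Type := Completion (Pre ℕ)

noncomputable instance : NormedAddCommGroup J :=
  Completion.instNormedAddCommGroup (Pre ℕ)

noncomputable instance : NormedSpace ℝ J :=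
  Completion.instNormedSpace ℝ (Pre ℕ)

/-- The dual of a normed space, with the dual norm. -/
def Dual (E : Type*) [NormedAddCommGroup E] [NormedSpace ℝ E] : Type _ := StrongDual ℝ E

section dual

variable {E : Type*} [NormedAddCommGroup E] [NormedSpace ℝ E]

noncomputable instance : NormedAddCommGroup (Dual E) := ContinuousLinearMap.toNormedAddCommGroup

noncomputable instance : NormedSpace ℝ (Dual E) := ContinuousLinearMap.toNormedSpace

end dual

/-- A real normed space is reflexive if its canonical map to the bidual is onto. -/
def Reflexive (E : Type*) [NormedAddCommGroup E] [NormedSpace ℝ E] : Prop :=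
  Function.Surjective (NormedSpace.inclusionInDoubleDual ℝ E)

/-- `E` contains `F`: some closed subspace of `E` is isomorphic to `F`. -/
def Contains (E F : Type*) [NormedAddCommGroup E] [NormedSpace ℝ E] [NormedAddCommGroup F]
    [NormedSpace ℝ F] : Prop :=
  ∃ Z : Submodule ℝ E, IsClosed (Z : Set E) ∧ Nonempty (Z ≃L[ℝ] F)

/-- Q1: every non-reflexive closed subspace `Y` of `JT*` contains `J*`. -/
theorem result (Y : Submodule ℝ (Dual JT)) (hYc : IsClosed (Y : Set (Dual JT)))
    (hY : ¬ Reflexive Y) : Contains Y (Dual J) := by
  have h0 : CompleteSpace (Dual JT) :=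
    inferInstanceAs (CompleteSpace (StrongDual ℝ (Completion (Pre Tree))))
  have h2 : CompleteSpace Y := hYc.completeSpace_coe
  exact main' (Y := Y) Y.subtypeₗᵢ hY

end Pool.Agent.Results.MP_245e03_an.NonreflexiveContainsJDual
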